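import Pool.Agent.H77.Syl.LB1

/-!
Module lemma, part 2: the fixed-point-free case by counting, and the combinatorial colouring lemma.
-/

namespace Pool.Agent.H77.Syl

open Finset

section free

variable {F : Type*} [Field F] {V : Type*} [AddCommGroup V] [Module F V]

theorem card_dvd_of_free [Finite V] (Q : Subgroup (Module.End F V)ˣ)
    (hfree : ∀ g ∈ Q, ∀ v : V, v ≠ 0 → (g : Module.End F V) v = v → g = 1) :
    Nat.card ↥Q ∣ Nat.card V - 1 := by
  classical
  let inst : MulAction ↥Q {v : V // v ≠ 0} :=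
    { smul := fun g v => ⟨(g.1 : Module.End F V) v.1, by
        intro h
        apply v.2
        have : (((g.1⁻¹ : (Module.End F V)ˣ) : Module.End F V) * (g.1 : Module.End F V)) v.1 = 0 := by
          rw [Module.End.mul_apply, h, map_zero]
        rwa [Units.inv_mul, Module.End.one_apply] at this⟩
      one_smul := by
        intro v
        apply Subtype.ext
        change (((1 : ↥Q).1 : (Module.End F V)ˣ) : Module.End F V) v.1 = v.1
        simp
      mul_smul := by
        intro g h v
        apply Subtype.ext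
        change (((g * h).1 : (Module.End F V)ˣ) : Module.End F V) v.1 = _
        rw [Subgroup.coe_mul, Units.val_mul, Module.End.mul_apply]
        rfl }
  have hst : ∀ b : {v : V // v ≠ 0}, MulAction.stabilizer ↥Q b = ⊥ := by
    intro b
    rw [eq_bot_iff]
    intro g hg
    rw [MulAction.mem_stabilizer_iff] at hg
    rw [Subgroup.mem_bot]
    apply Subtype.ext
    exact hfree g.1 g.2 b.1 b.2 (congrArg Subtype.val hg)
  have e := MulAction.selfEquivOrbitsQuotientProd hst
  have h1 : Nat.card {v : V // v ≠ 0} = Nat.card V - 1 := by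
    have := Nat.card_congr (Equiv.sumCompl (fun v : V => v = 0))
    rw [Nat.card_sum] at this
    have h2 : Nat.card {v : V // v = 0} = 1 := by simp
    rw [h2] at this
    change Nat.card {v : V // ¬ v = 0} = _
    omega
  rw [← h1, Nat.card_congr e, Nat.card_prod]
  exact Dvd.intro_left _ rfl

theorem case1 [Finite V] [Nontrivial V] (hV : Odd (Nat.card V)) {ι : Type*} [Finite ι] (p : ι → ℕ)
    (hp : ∀ i, (p i).Prime) (hp2 : ∀ i, p i ≠ 2) (hpinj : Function.Injective p)
    (P : ι → Subgroup (Module.End F V)ˣ) (hP : ∀ i, IsPGroup (p i) (P i))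
    (hfree : ∀ i, ∀ g ∈ P i, ∀ v : V, v ≠ 0 → (g : Module.End F V) v = v → g = 1) : Good P := by
  classical
  intro s i₀ w
  have := Fintype.ofFinite ι
  have hfE : Finite (Module.End F V) :=
    Finite.of_injective (fun f : Module.End F V => (f : V → V)) DFunLike.coe_injective
  have : ∀ i, Fintype ↥(P i) := fun i => Fintype.ofFinite _
  have : Fintype V := Fintype.ofFinite _
  -- each card is a prime power
  have hpow : ∀ i, ∃ a, Nat.card ↥(P i) = (p i) ^ a := by
    intro i
    have := Fact.mk (hp i)
    exact IsPGroup.iff_card.1 (hP i)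
  set N := Nat.card V - 1 with hN
  have hN0 : 0 < N := by
    have := Finite.one_lt_card (α := V)
    omega
  have h2N : 2 ∣ N := by
    obtain ⟨k, hk⟩ := hV
    exact ⟨k, by omega⟩
  have hprod : (∏ i, Nat.card ↥(P i)) ∣ N := by
    refine Finset.prod_dvd_of_isRelPrime ?_ ?_
    · intro i _ j _ hij
      obtain ⟨a, ha⟩ := hpow i
      obtain ⟨b, hb⟩ := hpow j
      change IsRelPrime (Nat.card ↥(P i)) (Nat.card ↥(P j))
      rw [← Nat.coprime_iff_isRelPrime, ha, hb]
      exact Nat.Coprime.pow _ _ ((Nat.coprime_primes (hp i) (hp j)).2 (fun h => hij (hpinj h)))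
    · intro i _
      exact card_dvd_of_free (P i) (hfree i)
  have h2prod : 2 * (∏ i, Nat.card ↥(P i)) ∣ N := by
    refine Nat.Coprime.mul_dvd_of_dvd_of_dvd ?_ h2N hprod
    refine Nat.Coprime.prod_right ?_
    intro i _
    obtain ⟨a, ha⟩ := hpow i
    rw [ha]
    exact Nat.Coprime.pow_right _ ((Nat.coprime_primes Nat.prime_two (hp i)).2 (fun h => hp2 i h.symm))
  have hle : 2 * (∏ i, Nat.card ↥(P i)) ≤ N := Nat.le_of_dvd hN0 h2prod
  set T : Finset ι := Finset.univ.filter (fun i => P i ≠ ⊥) with hT
  have hm : T.card < ∏ i, Nat.card ↥(P i) := by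
    calc T.card < 2 ^ T.card := Nat.lt_two_pow_self
      _ = ∏ i ∈ T, 2 := by rw [Finset.prod_const]
      _ ≤ ∏ i ∈ T, Nat.card ↥(P i) := by
        refine Finset.prod_le_prod' ?_
        intro i hi
        have h1 : P i ≠ ⊥ := (Finset.mem_filter.1 hi).2
        have := (Subgroup.one_lt_card_iff_ne_bot (P i)).2 h1
        omega
      _ ≤ ∏ i, Nat.card ↥(P i) := by
        refine Finset.prod_le_prod_of_subset_of_one_le' (Finset.subset_univ _) ?_
        intro i _ _
        exact Nat.card_pos
  have hi0 : Nat.card ↥(P i₀) ≤ ∏ i, Nat.card ↥(P i) := by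
    have : ∏ i ∈ {i₀}, Nat.card ↥(P i) ≤ ∏ i, Nat.card ↥(P i) := by
      refine Finset.prod_le_prod_of_subset_of_one_le' (Finset.subset_univ _) ?_
      intro i _ _
      exact Nat.card_pos
    simpa using this
  set B : Finset V := (T.image fun i => - s i) ∪
    ((Finset.univ : Finset ↥(P i₀)).image fun g => (g.1 : Module.End F V) w - s i₀) with hB
  have hBc : B.card < Fintype.card V := by
    have h1 : B.card ≤ T.card + Nat.card ↥(P i₀) := by
      refine (Finset.card_union_le _ _).trans ?_
      refine Nat.add_le_add Finset.card_image_le ?_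
      refine Finset.card_image_le.trans ?_
      rw [Finset.card_univ, Nat.card_eq_fintype_card]
    rw [← Nat.card_eq_fintype_card]
    omega
  obtain ⟨f, hf⟩ : ∃ f, f ∉ B := by
    by_contra hcon
    push Not at hcon
    have : B = Finset.univ := Finset.eq_univ_iff_forall.2 hcon
    rw [this, Finset.card_univ] at hBc
    exact lt_irrefl _ hBc
  rw [hB, Finset.mem_union, not_or] at hf
  refine ⟨f, ?_, ?_⟩
  · intro i g hg hgf
    by_cases h0 : f + s i = 0
    · have hfi : f = - s i := eq_neg_of_add_eq_zero_left h0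
      have : P i = ⊥ := by
        by_contra hne
        exact hf.1 (Finset.mem_image.2 ⟨i, Finset.mem_filter.2 ⟨Finset.mem_univ _, hne⟩, hfi.symm⟩)
      rw [this, Subgroup.mem_bot] at hg
      exact hg
    · exact hfree i g hg _ h0 hgf
  · intro g hg hgw
    exact hf.2 (Finset.mem_image.2 ⟨⟨g, hg⟩, Finset.mem_univ _, by simp [hgw]⟩)

end free

section comb

theorem comb {n : ℕ} [NeZero n] (hn : 3 ≤ n) {Ω : Type*} (S : ZMod n → Set Ω)
    (hS : ∀ k (ω : Ω), ∃ σ ∈ S k, σ ≠ ω) (κw : ZMod n → Ω) :
    ∃ κ : ZMod n → Ω, (∀ k, κ k ∈ S k) ∧ κ 0 ≠ κ 1 ∧ ∀ m, κ ≠ fun k => κw (k + m) := by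
  classical
  have h01 : (0 : ZMod n) ≠ 1 := by
    intro h
    have := (ZMod.natCast_eq_natCast_iff' 0 1 n).1 (by simpa using h)
    rw [Nat.mod_eq_of_lt (by omega), Nat.mod_eq_of_lt (by omega)] at this
    omega
  have h02 : (0 : ZMod n) ≠ 2 := by
    intro h
    have := (ZMod.natCast_eq_natCast_iff' 0 2 n).1 (by simpa using h)
    rw [Nat.mod_eq_of_lt (by omega), Nat.mod_eq_of_lt (by omega)] at this
    omega
  have h12 : (1 : ZMod n) ≠ 2 := by
    intro h
    have := (ZMod.natCast_eq_natCast_iff' 1 2 n).1 (by simpa using h)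
    rw [Nat.mod_eq_of_lt (by omega), Nat.mod_eq_of_lt (by omega)] at this
    omega
  obtain ⟨x0, hx0, -⟩ := hS 0 (κw 0)
  obtain ⟨x1, hx1, hx10⟩ := hS 1 x0
  have hne : ∀ k, ∃ σ, σ ∈ S k := fun k => by
    obtain ⟨σ, h, -⟩ := hS k (κw 0)
    exact ⟨σ, h⟩
  choose d hd using hne
  set κ₀ : ZMod n → Ω := fun k => if k = 0 then x0 else if k = 1 then x1 else d k with hκ0
  have hmem : ∀ k, κ₀ k ∈ S k := by
    intro k
    simp only [hκ0]
    split_ifs with h1 h2
    · subst h1; exact hx0
    · subst h2; exact hx1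
    · exact hd k
  have hne01 : κ₀ 0 ≠ κ₀ 1 := by
    have e0 : κ₀ 0 = x0 := by simp [hκ0]
    have e1 : κ₀ 1 = x1 := by simp [hκ0, h01.symm]
    rw [e0, e1]
    exact hx10.symm
  by_cases hgood : ∀ m, κ₀ ≠ fun k => κw (k + m)
  · exact ⟨κ₀, hmem, hne01, hgood⟩
  · push Not at hgood
    obtain ⟨m, hm⟩ := hgood
    obtain ⟨y, hy, hyne⟩ := hS 2 (κ₀ 2)
    set κ₁ : ZMod n → Ω := Function.update κ₀ 2 y with hκ1
    refine ⟨κ₁, ?_, ?_, ?_⟩
    · intro k
      by_cases hk : k = 2
      · subst hk; rw [hκ1, Function.update_self]; exact hy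
      · rw [hκ1, Function.update_of_ne hk]; exact hmem k
    · rw [hκ1, Function.update_of_ne h02, Function.update_of_ne h12]
      exact hne01
    · intro m' hm'
      -- κ₁ is a shift of κ₀
      have hshift : ∀ k, κ₁ k = κ₀ (k + (m' - m)) := by
        intro k
        rw [hm', hm]
        change κw (k + m') = κw (k + (m' - m) + m)
        congr 1
        ring
      have hc1 : (Finset.univ.filter fun k => κ₁ k = κ₀ 2).card = (Finset.univ.filter fun k => κ₀ k = κ₀ 2).card := by
        refine Finset.card_bij (fun k _ => k + (m' - m)) ?_ ?_ ?_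
        · intro k hk
          rw [Finset.mem_filter] at hk ⊢
          refine ⟨Finset.mem_univ _, ?_⟩
          rw [← hshift]
          exact hk.2
        · intro a _ b _ h
          exact add_right_cancel h
        · intro b hb
          rw [Finset.mem_filter] at hb
          refine ⟨b - (m' - m), ?_, by ring⟩
          rw [Finset.mem_filter]
          refine ⟨Finset.mem_univ _, ?_⟩
          rw [hshift]
          rw [sub_add_cancel]
          exact hb.2
      have hsub : (Finset.univ.filter fun k => κ₁ k = κ₀ 2) ⊂ (Finset.univ.filter fun k => κ₀ k = κ₀ 2) := by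
        rw [Finset.ssubset_iff_of_subset]
        · refine ⟨2, ?_, ?_⟩
          · simp
          · simp only [Finset.mem_filter, Finset.mem_univ, true_and]
            rw [hκ1, Function.update_self]
            exact hyne
        · intro k hk
          simp only [Finset.mem_filter, Finset.mem_univ, true_and] at hk ⊢
          by_cases hk2 : k = 2
          · subst hk2; rfl
          · rwa [hκ1, Function.update_of_ne hk2] at hk
      have := Finset.card_lt_card hsub
      omega

end comb

end Pool.Agent.H77.Syl
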