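import Mathlib

/-!
Module lemma, part 3: the eigenspace projections attached to two commuting automorphisms of order p.
-/

namespace Pool.Agent.H77.Syl

open Finset

section proj

variable {F : Type*} [Field F] {V : Type*} [AddCommGroup V] [Module F V]

/-- power of `z` indexed by `ZMod p` -/
def zp {p : ℕ} (z : (Module.End F V)ˣ) (k : ZMod p) : (Module.End F V)ˣ := z ^ k.val

theorem zp_add {p : ℕ} [NeZero p] {z : (Module.End F V)ˣ} (hz : z ^ p = 1) (k l : ZMod p) :
    zp z (k + l) = zp z k * zp z l := by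
  unfold zp
  rw [ZMod.val_add, ← pow_add, ← pow_eq_pow_mod _ hz]

theorem zp_mul {p : ℕ} [NeZero p] {z : (Module.End F V)ˣ} (hz : z ^ p = 1) (k l : ZMod p) :
    zp z (k * l) = (zp z k) ^ l.val := by
  unfold zp
  rw [ZMod.val_mul, ← pow_mul, ← pow_eq_pow_mod _ hz]

theorem zp_natCast {p : ℕ} [NeZero p] {z : (Module.End F V)ˣ} (hz : z ^ p = 1) (m : ℕ) :
    zp z (m : ZMod p) = z ^ m := by
  unfold zp
  rw [ZMod.val_natCast, ← pow_eq_pow_mod _ hz]

theorem zp_zero {p : ℕ} [NeZero p] (z : (Module.End F V)ˣ) : zp z (0 : ZMod p) = 1 := by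
  unfold zp
  rw [ZMod.val_zero, pow_zero]

theorem zp_one {p : ℕ} [Fact p.Prime] {z : (Module.End F V)ˣ} (hz : z ^ p = 1) : zp z (1 : ZMod p) = z := by
  have := zp_natCast (p := p) hz 1
  simpa using this

theorem pow_fix (g : (Module.End F V)ˣ) {v : V} (h : (g : Module.End F V) v = v) (n : ℕ) :
    ((g ^ n : (Module.End F V)ˣ) : Module.End F V) v = v := by
  induction n with
  | zero => simp
  | succ n ih => rw [pow_succ, Units.val_mul, Module.End.mul_apply, h, ih]

theorem unit_inj (g : (Module.End F V)ˣ) {x y : V} (h : (g : Module.End F V) x = (g : Module.End F V) y) :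
    x = y := by
  have h1 : ∀ v : V, ((g⁻¹ : (Module.End F V)ˣ) : Module.End F V) ((g : Module.End F V) v) = v := by
    intro v
    rw [← Module.End.mul_apply, Units.inv_mul, Module.End.one_apply]
  rw [← h1 x, ← h1 y, h]

theorem zp_fix {p : ℕ} [Fact p.Prime] {z : (Module.End F V)ˣ} (hz : z ^ p = 1)
    (hfix : ∀ v : V, (z : Module.End F V) v = v → v = 0) {d : ZMod p} (hd : d ≠ 0) {v : V}
    (h : (zp z d : Module.End F V) v = v) : v = 0 := by
  apply hfix
  have h1 : z = (zp z d) ^ (d⁻¹).val := by
    rw [← zp_mul hz, mul_inv_cancel₀ hd, zp_one hz]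
  have := pow_fix (zp z d) h (d⁻¹).val
  rw [← h1] at this
  exact this

/-- the automorphism `c z^k` -/
def uu {p : ℕ} (z c : (Module.End F V)ˣ) (k : ZMod p) : (Module.End F V)ˣ := c * zp z k

/-- the projection on the fixed space of `c z^k` -/
noncomputable def ee {p : ℕ} (z c : (Module.End F V)ˣ) (k : ZMod p) : Module.End F V :=
  ((p : F)⁻¹) • ∑ j ∈ range p, ((uu z c k : Module.End F V)) ^ j

theorem uu_pow {p : ℕ} [Fact p.Prime] {z c : (Module.End F V)ˣ} (hz : z ^ p = 1) (hc : c ^ p = 1)
    (hzc : z * c = c * z) (k : ZMod p) : (uu z c k) ^ p = 1 := by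
  unfold uu
  have hcom : Commute c (zp z k) := by
    unfold zp
    exact (Commute.pow_right (show Commute c z from hzc.symm) _)
  rw [hcom.mul_pow, hc, one_mul]
  unfold zp
  rw [← pow_mul, mul_comm, pow_mul, hz, one_pow]

theorem sum_pow_fix {p : ℕ} {u : Module.End F V} (hu : u ^ p = 1) :
    u * (∑ j ∈ range p, u ^ j) = ∑ j ∈ range p, u ^ j := by
  rw [Finset.mul_sum]
  have h1 : ∑ j ∈ range (p + 1), u ^ j = ∑ j ∈ range p, u * u ^ j + 1 := by
    rw [Finset.sum_range_succ']
    simp only [pow_succ', pow_zero]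
  have h2 : ∑ j ∈ range (p + 1), u ^ j = ∑ j ∈ range p, u ^ j + 1 := by
    rw [Finset.sum_range_succ, hu]
  have := h1.symm.trans h2
  exact add_right_cancel this

theorem uu_mul_ee {p : ℕ} [Fact p.Prime] {z c : (Module.End F V)ˣ} (hz : z ^ p = 1) (hc : c ^ p = 1)
    (hzc : z * c = c * z) (k : ZMod p) : (uu z c k : Module.End F V) * ee z c k = ee z c k := by
  unfold ee
  rw [mul_smul_comm, sum_pow_fix]
  rw [← Units.val_pow_eq_pow_val, uu_pow hz hc hzc, Units.val_one]

theorem ee_fix {p : ℕ} {z c : (Module.End F V)ˣ} (hpF : (p : F) ≠ 0) (k : ZMod p)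
    {v : V} (h : (uu z c k : Module.End F V) v = v) : ee z c k v = v := by
  unfold ee
  rw [LinearMap.smul_apply, LinearMap.sum_apply]
  have : ∀ j ∈ range p, ((uu z c k : Module.End F V) ^ j) v = v := by
    intro j _
    rw [← Units.val_pow_eq_pow_val]
    exact pow_fix _ h j
  rw [Finset.sum_congr rfl this, Finset.sum_const, Finset.card_range, ← Nat.cast_smul_eq_nsmul F,
    smul_smul, inv_mul_cancel₀ hpF, one_smul]

theorem sum_zp {p : ℕ} [Fact p.Prime] {z : (Module.End F V)ˣ} (hz : z ^ p = 1)
    (hfix : ∀ v : V, (z : Module.End F V) v = v → v = 0) {j : ℕ} (hj : ((j : ℕ) : ZMod p) ≠ 0) :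
    ∑ k : ZMod p, ((zp z k : (Module.End F V)ˣ) : Module.End F V) ^ j = 0 := by
  set S := ∑ k : ZMod p, ((zp z k : (Module.End F V)ˣ) : Module.End F V) ^ j with hS
  have h1 : ((zp z (1 : ZMod p) : (Module.End F V)ˣ) : Module.End F V) ^ j * S = S := by
    rw [hS, Finset.mul_sum]
    refine Fintype.sum_equiv (Equiv.addLeft (1 : ZMod p)) _ _ ?_
    intro k
    rw [Equiv.coe_addLeft, zp_add hz, Units.val_mul]
    have hcom : Commute ((zp z (1 : ZMod p) : (Module.End F V)ˣ) : Module.End F V) ((zp z k : (Module.End F V)ˣ) : Module.End F V) := by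
      change _ * _ = _ * _
      rw [← Units.val_mul, ← Units.val_mul, ← zp_add hz, ← zp_add hz, add_comm]
    rw [hcom.mul_pow]
  ext v
  have h2 : (((zp z (j : ZMod p) : (Module.End F V)ˣ) : Module.End F V)) (S v) = S v := by
    have h3 : ((zp z (1 : ZMod p) : (Module.End F V)ˣ) : Module.End F V) ^ j = ((zp z (j : ZMod p) : (Module.End F V)ˣ) : Module.End F V) := by
      rw [zp_one hz, zp_natCast hz, Units.val_pow_eq_pow_val]
    rw [← h3, ← Module.End.mul_apply, h1]
  rw [LinearMap.zero_apply]
  exact zp_fix hz hfix hj h2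

theorem sum_ee {p : ℕ} [Fact p.Prime] {z c : (Module.End F V)ˣ} (hz : z ^ p = 1)
    (hzc : z * c = c * z) (hpF : (p : F) ≠ 0)
    (hfix : ∀ v : V, (z : Module.End F V) v = v → v = 0) :
    ∑ k : ZMod p, ee z c k = 1 := by
  unfold ee
  rw [← Finset.smul_sum, Finset.sum_comm]
  have h1 : ∀ j ∈ range p, ∑ k : ZMod p, ((uu z c k : (Module.End F V)ˣ) : Module.End F V) ^ j
      = if j = 0 then (p : F) • (1 : Module.End F V) else 0 := by
    intro j hj
    split_ifs with h0
    · subst h0
      simp only [pow_zero, Finset.sum_const, Finset.card_univ, ZMod.card]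
      rw [Nat.cast_smul_eq_nsmul F]
    · have hj' : ((j : ℕ) : ZMod p) ≠ 0 := by
        rw [Ne, ZMod.natCast_eq_zero_iff]
        intro hd
        have := Nat.le_of_dvd (Nat.pos_of_ne_zero h0) hd
        have := Finset.mem_range.1 hj
        omega
      have : ∀ k : ZMod p, ((uu z c k : (Module.End F V)ˣ) : Module.End F V) ^ j
          = ((c : Module.End F V)) ^ j * ((zp z k : (Module.End F V)ˣ) : Module.End F V) ^ j := by
        intro k
        unfold uu
        rw [Units.val_mul]
        have hcom : Commute (c : Module.End F V) ((zp z k : (Module.End F V)ˣ) : Module.End F V) := by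
          unfold zp
          rw [Units.val_pow_eq_pow_val]
          refine Commute.pow_right ?_ _
          change _ * _ = _ * _
          rw [← Units.val_mul, ← Units.val_mul, hzc]
        rw [hcom.mul_pow]
      rw [Finset.sum_congr rfl (fun k _ => this k), ← Finset.mul_sum, sum_zp hz hfix hj', mul_zero]
  rw [Finset.sum_congr rfl h1, Finset.sum_ite_eq']
  have hpos : 0 < p := (Fact.out : p.Prime).pos
  rw [if_pos (Finset.mem_range.2 hpos), smul_smul, inv_mul_cancel₀ hpF, one_smul]

theorem uu_comm {p : ℕ} {z c : (Module.End F V)ˣ}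
    (hzc : z * c = c * z) (k l : ZMod p) : Commute (uu z c k) (uu z c l) := by
  unfold uu zp
  have h : Commute c z := hzc.symm
  have h1 : Commute c (z ^ k.val) := h.pow_right _
  have h2 : Commute c (z ^ l.val) := h.pow_right _
  have h3 : Commute (z ^ k.val) (z ^ l.val) := (Commute.refl z).pow_pow _ _
  exact ((Commute.refl c).mul_right h2).mul_left ((h1.symm).mul_right h3)

theorem ee_ortho {p : ℕ} [Fact p.Prime] {z c : (Module.End F V)ˣ} (hz : z ^ p = 1) (hc : c ^ p = 1)
    (hzc : z * c = c * z) (hfix : ∀ v : V, (z : Module.End F V) v = v → v = 0)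
    {k l : ZMod p} (hkl : k ≠ l) {v : V} (h : (uu z c l : Module.End F V) v = v) :
    ee z c k v = 0 := by
  set x := ee z c k v with hx
  have h1 : (uu z c k : Module.End F V) x = x := by
    rw [hx, ← Module.End.mul_apply, uu_mul_ee hz hc hzc]
  have h2 : (uu z c l : Module.End F V) x = x := by
    have hcom : Commute (uu z c l : Module.End F V) (ee z c k) := by
      unfold ee
      refine Commute.smul_right ?_ _
      refine Commute.sum_right _ _ _ ?_
      intro j _
      refine Commute.pow_right ?_ _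
      change _ * _ = _ * _
      rw [← Units.val_mul, ← Units.val_mul, (uu_comm hzc l k).eq]
    have : ((uu z c l : Module.End F V) * ee z c k) v = (ee z c k * (uu z c l : Module.End F V)) v := by
      rw [hcom.eq]
    rw [Module.End.mul_apply, Module.End.mul_apply, h] at this
    exact this
  have hkl' : k - l ≠ 0 := sub_ne_zero.2 hkl
  refine zp_fix hz hfix hkl' ?_
  -- zp (k - l) x = x
  have h3 : uu z c k = uu z c l * zp z (k - l) := by
    unfold uu
    rw [mul_assoc, ← zp_add hz]
    congr 2
    ring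
  have h4 : (uu z c l : Module.End F V) ((zp z (k - l) : Module.End F V) x) = (uu z c l : Module.End F V) x := by
    rw [h2, ← Module.End.mul_apply, ← Units.val_mul, ← h3, h1]
  exact unit_inj _ h4

theorem ee_semi {p : ℕ} [Fact p.Prime] {z c : (Module.End F V)ˣ} (hz : z ^ p = 1)
    {g : (Module.End F V)ˣ} (hgz : z * g = g * z) {m : ZMod p} (hg : c * g = g * (c * zp z m)) (k : ZMod p) :
    ee z c k * (g : Module.End F V) = g * ee z c (k + m) := by
  have h1 : zp z k * g = g * zp z k := by
    unfold zp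
    exact (Commute.pow_left (show Commute z g from hgz) _)
  have h2 : uu z c k * g = g * uu z c (k + m) := by
    unfold uu
    rw [mul_assoc, h1, ← mul_assoc, hg, add_comm, zp_add hz]
    simp only [mul_assoc]
  have h3 : SemiconjBy (g : Module.End F V) (uu z c (k + m) : Module.End F V) (uu z c k : Module.End F V) := by
    change _ * _ = _ * _
    rw [← Units.val_mul, ← Units.val_mul, h2]
  unfold ee
  rw [smul_mul_assoc, mul_smul_comm, Finset.sum_mul, Finset.mul_sum]
  congr 1
  refine Finset.sum_congr rfl ?_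
  intro j _
  exact (h3.pow_right j).symm

end proj

end Pool.Agent.H77.Syl
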