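import Pool.Agent.H77.Syl.LB2
import Pool.Agent.H77.Syl.LB3

/-!
Module lemma, part 4: the imprimitive case.
-/

namespace Pool.Agent.H77.Syl

open Finset

section case2

variable {F : Type*} [Field F] {V : Type*} [AddCommGroup V] [Module F V]

/-- orbit of a vector under a group of automorphisms, as a set -/
def orb (P : Subgroup (Module.End F V)ˣ) (x : V) : Set V := {y | ∃ g ∈ P, (g : Module.End F V) x = y}

theorem orb_eq (P : Subgroup (Module.End F V)ˣ) {x y : V} {g : (Module.End F V)ˣ} (hg : g ∈ P)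
    (h : (g : Module.End F V) x = y) : orb P x = orb P y := by
  ext v
  constructor
  · rintro ⟨k, hk, rfl⟩
    refine ⟨k * g⁻¹, P.mul_mem hk (P.inv_mem hg), ?_⟩
    rw [← h, ← Module.End.mul_apply, ← Units.val_mul]
    simp
  · rintro ⟨k, hk, rfl⟩
    refine ⟨k * g, P.mul_mem hk hg, ?_⟩
    rw [← h, ← Module.End.mul_apply, ← Units.val_mul]

theorem mem_orb_self (P : Subgroup (Module.End F V)ˣ) (x : V) : x ∈ orb P x :=
  ⟨1, P.one_mem, by simp⟩

/-- conclusion of the induction hypothesis on a submodule -/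
def SubGood {ι : Type*} (p : ι → ℕ) (U : Submodule F V) : Prop :=
  ∀ (Q : ι → Subgroup (Module.End F V)ˣ) (_ : ∀ i, IsPGroup (p i) (Q i))
    (_ : ∀ i, ∀ g ∈ Q i, ∀ v ∈ U, (g : Module.End F V) v ∈ U)
    (_ : ∀ i j, i ≠ j → ∀ g ∈ Q i, ∀ h ∈ Q j, g * h = h * g)
    (s : ι → V) (_ : ∀ i, s i ∈ U) (i₀ : ι) (w : V) (_ : w ∈ U),
    ∃ f ∈ U, (∀ i, ∀ g ∈ Q i, (g : Module.End F V) (f + s i) = f + s i →
        ∀ v ∈ U, (g : Module.End F V) v = v) ∧
      ∀ g ∈ Q i₀, (g : Module.End F V) w ≠ f + s i₀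

theorem case2 [Nontrivial V] {ι : Type*} (p : ι → ℕ)
    (hp : ∀ i, (p i).Prime) (hp2 : ∀ i, p i ≠ 2) (hpF : ∀ i, (p i : F) ≠ 0)
    (P : ι → Subgroup (Module.End F V)ˣ) (hP : ∀ i, IsPGroup (p i) (P i))
    (hcomm : ∀ i j, i ≠ j → ∀ g ∈ P i, ∀ h ∈ P j, g * h = h * g)
    (hirr : ∀ U : Submodule F V, (∀ i, ∀ g ∈ P i, ∀ v ∈ U, (g : Module.End F V) v ∈ U) → U = ⊥ ∨ U = ⊤)
    (hsub : ∀ U : Submodule F V, U ≠ ⊥ → U ≠ ⊤ → SubGood p U)
    (i₁ : ι) (z c : (Module.End F V)ˣ) (hcP : c ∈ P i₁) (hzP : z ∈ P i₁)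
    (hzcen : ∀ g ∈ P i₁, z * g = g * z) (hz1 : z ≠ 1) (hz : z ^ (p i₁) = 1) (hc : c ^ (p i₁) = 1)
    (hcz : ∀ k : ℕ, c ≠ z ^ k) (hconj : ∀ g ∈ P i₁, ∃ k : ℕ, g⁻¹ * c * g = c * z ^ k) : Good P := by
  classical
  intro s i₀ w
  have hprime : Fact (p i₁).Prime := ⟨hp i₁⟩
  have hzc : z * c = c * z := hzcen c hcP
  have hcommz : ∀ i, ∀ g ∈ P i, z * g = g * z := by
    intro i g hg
    by_cases hi : i = i₁
    · subst hi; exact hzcen g hg
    · exact (hcomm i i₁ hi g hg z hzP).symm
  have hcommc : ∀ i, i ≠ i₁ → ∀ g ∈ P i, c * g = g * c := by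
    intro i hi g hg
    exact (hcomm i i₁ hi g hg c hcP).symm
  -- fixed vectors of z
  have hfix : ∀ v : V, (z : Module.End F V) v = v → v = 0 := by
    have h1 := hirr (LinearMap.ker ((z : Module.End F V) - 1)) (by
      intro i g hg v hv
      rw [LinearMap.mem_ker, LinearMap.sub_apply, Module.End.one_apply, sub_eq_zero] at hv ⊢
      rw [← Module.End.mul_apply, ← Units.val_mul, hcommz i g hg, Units.val_mul, Module.End.mul_apply, hv])
    rcases h1 with h1 | h1
    · intro v hv
      have : v ∈ LinearMap.ker ((z : Module.End F V) - 1) := by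
        rw [LinearMap.mem_ker, LinearMap.sub_apply, Module.End.one_apply, hv, sub_self]
      rw [h1] at this
      simpa using this
    · exfalso
      apply hz1
      apply Units.ext
      ext v
      have : v ∈ LinearMap.ker ((z : Module.End F V) - 1) := by rw [h1]; trivial
      rw [LinearMap.mem_ker, LinearMap.sub_apply, Module.End.one_apply, sub_eq_zero] at this
      simpa using this
  -- shifts
  have hshift : ∀ g ∈ P i₁, ∃ m : ZMod (p i₁), c * g = g * (c * zp z m) := by
    intro g hg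
    obtain ⟨k, hk⟩ := hconj g hg
    refine ⟨(k : ZMod (p i₁)), ?_⟩
    rw [zp_natCast hz, ← hk]
    group
  set Vk : ZMod (p i₁) → Submodule F V := fun k => LinearMap.ker ((uu z c k : Module.End F V) - 1) with hVk
  have hmem : ∀ k v, v ∈ Vk k ↔ (uu z c k : Module.End F V) v = v := by
    intro k v
    rw [hVk]
    simp only
    rw [LinearMap.mem_ker, LinearMap.sub_apply, Module.End.one_apply, sub_eq_zero]
  set e : ZMod (p i₁) → Module.End F V := fun k => ee z c k with he
  have he_mem : ∀ k v, e k v ∈ Vk k := by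
    intro k v
    rw [hmem, he]
    simp only
    rw [← Module.End.mul_apply, uu_mul_ee hz hc hzc]
  have he_id : ∀ k v, v ∈ Vk k → e k v = v := by
    intro k v hv
    exact ee_fix (hpF i₁) k ((hmem k v).1 hv)
  have he_ort : ∀ k l v, k ≠ l → v ∈ Vk l → e k v = 0 := by
    intro k l v hkl hv
    exact ee_ortho hz hc hzc hfix hkl ((hmem l v).1 hv)
  have hsum : ∀ v, ∑ k, e k v = v := by
    intro v
    have := sum_ee (p := p i₁) hz hzc (hpF i₁) hfix
    have h2 := congrArg (fun T : Module.End F V => T v) this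
    simpa [LinearMap.sum_apply, he] using h2
  have hsemi : ∀ g : (Module.End F V)ˣ, z * g = g * z → ∀ m : ZMod (p i₁), c * g = g * (c * zp z m) →
      ∀ k v, e k ((g : Module.End F V) v) = (g : Module.End F V) (e (k + m) v) := by
    intro g hgz m hg k v
    have := ee_semi hz hgz hg k
    rw [he]
    simp only
    rw [← Module.End.mul_apply, ← Module.End.mul_apply, this]
  have hsemi0 : ∀ g : (Module.End F V)ˣ, z * g = g * z → c * g = g * c →
      ∀ k v, e k ((g : Module.End F V) v) = (g : Module.End F V) (e k v) := by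
    intro g hgz hg k v
    have := hsemi g hgz 0 (by rw [zp_zero, mul_one]; exact hg) k v
    rwa [add_zero] at this
  have hVtop : ∀ k, Vk k ≠ ⊤ := by
    intro k hk
    have h1 : uu z c k = 1 := by
      apply Units.ext
      ext v
      have := (hmem k v).1 (by rw [hk]; trivial)
      simpa using this
    have h2 : c = zp z (-k) := by
      have h3 : zp z (-k) * zp z k = 1 := by
        rw [← zp_add hz, neg_add_cancel, zp_zero]
      have h4 : c * zp z k = 1 := h1
      exact mul_right_cancel (h4.trans h3.symm)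
    exact hcz _ h2
  -- submodule invariance of Vk under elements commuting with c and z
  have hVinv : ∀ g : (Module.End F V)ˣ, z * g = g * z → c * g = g * c → ∀ k, ∀ v ∈ Vk k,
      (g : Module.End F V) v ∈ Vk k := by
    intro g hgz hg k v hv
    have := hsemi0 g hgz hg k v
    rw [he_id k v hv] at this
    rw [← this]
    exact he_mem k _
  have hnc : ∃ g ∈ P i₁, ∃ m : ZMod (p i₁), m ≠ 0 ∧ c * g = g * (c * zp z m) := by
    by_contra hcon
    push Not at hcon
    have hall : ∀ g ∈ P i₁, c * g = g * c := by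
      intro g hg
      obtain ⟨m, hm⟩ := hshift g hg
      by_cases h0 : m = 0
      · rw [h0, zp_zero, mul_one] at hm
        exact hm
      · exact absurd hm (hcon g hg m h0)
    have hbot : ∀ k, Vk k = ⊥ := by
      intro k
      refine (hirr (Vk k) ?_).resolve_right (hVtop k)
      intro i g hg v hv
      refine hVinv g (hcommz i g hg) ?_ k v hv
      by_cases hi : i = i₁
      · subst hi; exact hall g hg
      · exact hcommc i hi g hg
    obtain ⟨v, hv⟩ := exists_ne (0 : V)
    apply hv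
    rw [← hsum v]
    refine Finset.sum_eq_zero ?_
    intro k _
    have := he_mem k v
    rw [hbot k] at this
    simpa using this
  have hVbot : ∀ k, Vk k ≠ ⊥ := by
    intro k hk
    obtain ⟨g, hg, m, hm0, hm⟩ := hnc
    have h1 : ∀ n : ℕ, ∀ v, e (k + n * m) v = 0 := by
      intro n
      induction n with
      | zero =>
        intro v
        have := he_mem k v
        rw [hk] at this
        simpa using this
      | succ n ih =>
        intro v
        have h2 := hsemi g (hcommz i₁ g hg) m hm (k + n * m) v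
        rw [ih] at h2
        have h3 : e (k + n * m + m) v = 0 := by
          refine unit_inj g ?_
          rw [← h2, map_zero]
        have h4 : k + ((n + 1 : ℕ) : ZMod (p i₁)) * m = k + n * m + m := by push_cast; ring
        rw [h4]; exact h3
    obtain ⟨v, hv⟩ := exists_ne (0 : V)
    apply hv
    rw [← hsum v]
    refine Finset.sum_eq_zero ?_
    intro l _
    have h5 := h1 ((l - k) * m⁻¹).val v
    rw [ZMod.natCast_zmod_val, mul_assoc, inv_mul_cancel₀ hm0, mul_one, add_sub_cancel] at h5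
    exact h5
  -- the family Q
  set Q : ι → Subgroup (Module.End F V)ˣ := fun i => P i ⊓ Subgroup.centralizer {c} with hQ
  have hQmem : ∀ i g, g ∈ Q i ↔ g ∈ P i ∧ c * g = g * c := by
    intro i g
    rw [hQ]
    simp only [Subgroup.mem_inf, Subgroup.mem_centralizer_singleton_iff]
    constructor
    · rintro ⟨h1, h2⟩
      exact ⟨h1, h2.symm⟩
    · rintro ⟨h1, h2⟩
      exact ⟨h1, h2.symm⟩
  have hQP : ∀ i, IsPGroup (p i) (Q i) := fun i => (hP i).to_le inf_le_left
  have hQinv : ∀ k i, ∀ g ∈ Q i, ∀ v ∈ Vk k, (g : Module.End F V) v ∈ Vk k := by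
    intro k i g hg v hv
    exact hVinv g (hcommz i g ((hQmem i g).1 hg).1) ((hQmem i g).1 hg).2 k v hv
  have hQcomm : ∀ i j, i ≠ j → ∀ g ∈ Q i, ∀ h ∈ Q j, g * h = h * g := by
    intro i j hij g hg h hh
    exact hcomm i j hij g ((hQmem i g).1 hg).1 h ((hQmem j h).1 hh).1
  set G : ZMod (p i₁) → V → Prop := fun k f => f ∈ Vk k ∧ ∀ i, ∀ g ∈ Q i,
    (g : Module.End F V) (f + e k (s i)) = f + e k (s i) → ∀ v ∈ Vk k, (g : Module.End F V) v = v with hG
  have IH1 : ∀ k (i : ι) (x : V), x ∈ Vk k → ∃ f, G k f ∧ ∀ g ∈ Q i, (g : Module.End F V) x ≠ f + e k (s i) := by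
    intro k i x hx
    obtain ⟨f, hf, h1, h2⟩ := hsub (Vk k) (hVbot k) (hVtop k) Q hQP (hQinv k) hQcomm
      (fun i => e k (s i)) (fun i => he_mem k _) i x hx
    exact ⟨f, ⟨hf, h1⟩, h2⟩
  have IH2 : ∀ k (x : V), ∃ f, G k f ∧ ∀ g ∈ P i₁, (g : Module.End F V) x ≠ f + e k (s i₁) := by
    intro k x
    by_cases hex : ∃ g₀ ∈ P i₁, (g₀ : Module.End F V) x ∈ Vk k
    · obtain ⟨g₀, hg₀, hx⟩ := hex
      obtain ⟨f, hf, h2⟩ := IH1 k i₁ _ hx
      refine ⟨f, hf, ?_⟩
      intro g hg hgx
      set y := f + e k (s i₁) with hy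
      set x' := (g₀ : Module.End F V) x with hx'
      have hyV : y ∈ Vk k := (Vk k).add_mem hf.1 (he_mem k _)
      set h := g * g₀⁻¹ with hh
      have hhP : h ∈ P i₁ := (P i₁).mul_mem hg ((P i₁).inv_mem hg₀)
      have hhx : (h : Module.End F V) x' = y := by
        rw [hx', ← Module.End.mul_apply, ← Units.val_mul, hh, inv_mul_cancel_right, hgx]
      obtain ⟨m, hm⟩ := hshift h hhP
      by_cases hm0 : m = 0
      · rw [hm0, zp_zero, mul_one] at hm
        exact h2 h ((hQmem i₁ h).2 ⟨hhP, hm⟩) hhx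
      · have h3 := hsemi h (hcommz i₁ h hhP) m hm k x'
        rw [he_ort (k + m) k x' (by intro h; apply hm0; simpa using h) hx, map_zero, hhx, he_id k y hyV] at h3
        -- y = 0, hence x' = 0
        have hx0 : x' = 0 := by
          refine unit_inj h ?_
          rw [hhx, h3, map_zero]
        refine h2 1 (Subgroup.one_mem _) ?_
        rw [hx0, map_zero, h3]
    · obtain ⟨f, hf, -⟩ := IH1 k i₁ 0 (Vk k).zero_mem
      refine ⟨f, hf, ?_⟩
      intro g hg hgx
      apply hex
      refine ⟨g, hg, ?_⟩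
      rw [hgx]
      exact (Vk k).add_mem hf.1 (he_mem k _)
  -- finishing argument
  have finish : ∀ f : ZMod (p i₁) → V, (∀ k, G k (f k)) →
      (∀ g ∈ P i₁, (g : Module.End F V) (f 0 + e 0 (s i₁)) ≠ f 1 + e 1 (s i₁)) →
      (∀ i k, e k ((∑ l, f l) + s i) = f k + e k (s i)) ∧
      ∀ i, ∀ g ∈ P i, (g : Module.End F V) ((∑ l, f l) + s i) = (∑ l, f l) + s i → g = 1 := by
    intro f hf h01
    have hek : ∀ i k, e k ((∑ l, f l) + s i) = f k + e k (s i) := by
      intro i k
      rw [map_add, map_sum, Finset.sum_eq_single k]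
      · rw [he_id k _ (hf k).1]
      · intro l _ hl
        exact he_ort k l _ (Ne.symm hl) (hf l).1
      · intro h; exact absurd (Finset.mem_univ k) h
    refine ⟨hek, ?_⟩
    have hfin : ∀ i, ∀ g ∈ Q i, (g : Module.End F V) ((∑ l, f l) + s i) = (∑ l, f l) + s i → g = 1 := by
      intro i g hg hgf
      have h1 : ∀ k, ∀ v ∈ Vk k, (g : Module.End F V) v = v := by
        intro k
        refine (hf k).2 i g hg ?_
        rw [← hek i k, ← hsemi0 g (hcommz i g ((hQmem i g).1 hg).1) ((hQmem i g).1 hg).2 k, hgf]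
      apply Units.ext
      ext v
      rw [Units.val_one, Module.End.one_apply]
      conv_rhs => rw [← hsum v]
      conv_lhs => rw [← hsum v]
      rw [map_sum]
      refine Finset.sum_congr rfl ?_
      intro k _
      exact h1 k _ (he_mem k v)
    intro i g hg hgf
    by_cases hi : i = i₁
    · subst hi
      obtain ⟨m, hm⟩ := hshift g hg
      by_cases hm0 : m = 0
      · rw [hm0, zp_zero, mul_one] at hm
        exact hfin i g ((hQmem i g).2 ⟨hg, hm⟩) hgf
      · exfalso
        set u := (∑ l, f l) + s i with hu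
        have h1 : ∀ (k : ZMod (p i)) (n : ℕ), e k u = ((g ^ n : (Module.End F V)ˣ) : Module.End F V) (e (k + n * m) u) := by
          intro k n
          induction n with
          | zero => simp
          | succ n ih =>
            rw [ih]
            have h2 := hsemi g (hcommz i g hg) m hm (k + n * m) u
            rw [hgf] at h2
            rw [h2, pow_succ, Units.val_mul, Module.End.mul_apply]
            have h4 : k + ((n + 1 : ℕ) : ZMod (p i)) * m = k + n * m + m := by push_cast; ring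
            rw [h4]
        have h2 := h1 1 (-m⁻¹).val
        rw [ZMod.natCast_zmod_val, neg_mul, inv_mul_cancel₀ hm0, add_neg_cancel, hek i 1, hek i 0] at h2
        exact h01 _ ((P i).pow_mem hg _) h2.symm
    · exact hfin i g ((hQmem i g).2 ⟨hg, hcommc i hi g hg⟩) hgf
  by_cases hi : i₀ = i₁
  · -- the orbit to be avoided is one of the group with the imprimitive action
    subst hi
    have hn3 : 3 ≤ p i₀ := by
      have := (hp i₀).two_le
      have := hp2 i₀
      omega
    set S : ZMod (p i₀) → Set (Set V) := fun k => {O | ∃ f, G k f ∧ O = orb (P i₀) (f + e k (s i₀))} with hS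
    have hS2 : ∀ k (O : Set V), ∃ σ ∈ S k, σ ≠ O := by
      intro k O
      obtain ⟨f, hf, -⟩ := IH2 k 0
      by_cases hO : orb (P i₀) (f + e k (s i₀)) = O
      · obtain ⟨f', hf', h2⟩ := IH2 k (f + e k (s i₀))
        refine ⟨orb (P i₀) (f' + e k (s i₀)), ⟨f', hf', rfl⟩, ?_⟩
        rw [← hO]
        intro h
        have := mem_orb_self (P i₀) (f' + e k (s i₀))
        rw [h] at this
        obtain ⟨g, hg, hg2⟩ := this
        exact h2 g hg hg2
      · exact ⟨_, ⟨f, hf, rfl⟩, hO⟩
    obtain ⟨κ, hκ, hκ01, hκm⟩ := comb hn3 S hS2 (fun k => orb (P i₀) (e k w))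
    choose f hf hfκ using hκ
    have h01 : ∀ g ∈ P i₀, (g : Module.End F V) (f 0 + e 0 (s i₀)) ≠ f 1 + e 1 (s i₀) := by
      intro g hg h
      apply hκ01
      rw [hfκ 0, hfκ 1]
      exact orb_eq _ hg h
    obtain ⟨h1, h2⟩ := finish f hf h01
    refine ⟨∑ l, f l, h2, ?_⟩
    intro g hg hgw
    obtain ⟨m, hm⟩ := hshift g hg
    apply hκm m
    funext k
    rw [hfκ k, ← h1 i₀ k, ← hgw, hsemi g (hcommz i₀ g hg) m hm k w]
    exact (orb_eq _ hg rfl).symm
  · obtain ⟨f0, hf0, hf0w⟩ := IH1 0 i₀ (e 0 w) (he_mem 0 w)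
    have hall : ∀ k, ∃ f, G k f ∧ ∀ g ∈ P i₁, (g : Module.End F V) (f0 + e 0 (s i₁)) ≠ f + e k (s i₁) :=
      fun k => IH2 k _
    choose d hd hd2 using hall
    have h10 : (1 : ZMod (p i₁)) ≠ 0 := one_ne_zero
    set f : ZMod (p i₁) → V := Function.update d 0 f0 with hfdef
    have hf0' : f 0 = f0 := Function.update_self _ _ _
    have hf1' : f 1 = d 1 := Function.update_of_ne h10 _ _
    have hf : ∀ k, G k (f k) := by
      intro k
      by_cases hk : k = 0
      · subst hk; rw [hf0']; exact hf0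
      · rw [hfdef, Function.update_of_ne hk]; exact hd k
    obtain ⟨h1, h2⟩ := finish f hf (by rw [hf0', hf1']; exact hd2 1)
    refine ⟨∑ l, f l, h2, ?_⟩
    intro g hg hgw
    have hgQ : g ∈ Q i₀ := (hQmem i₀ g).2 ⟨hg, hcommc i₀ hi g hg⟩
    apply hf0w g hgQ
    rw [← hf0', ← h1 i₀ 0, ← hgw, hsemi0 g (hcommz i₀ g hg) (hcommc i₀ hi g hg) 0 w]

end case2

end Pool.Agent.H77.Syl
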