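import Mathlib

namespace Pool.Agent.H77.Syl

/-- class two power formula -/
lemma mul_pow_of_comm {P : Type*} [Group P] {x y w : P} (hw : w ∈ Subgroup.center P)
    (h : y * x = x * y * w) : ∀ n : ℕ, (x * y) ^ n = x ^ n * y ^ n * w ^ (n.choose 2) := by
  have hwc : ∀ g : P, g * w = w * g := fun g => (Subgroup.mem_center_iff.1 hw g)
  have hwn : ∀ (n : ℕ) (g : P), g * w ^ n = w ^ n * g := fun n g =>
    ((show Commute g w from hwc g).pow_right n)
  have hy : ∀ n : ℕ, y ^ n * x = x * y ^ n * w ^ n := by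
    intro n
    induction n with
    | zero => simp
    | succ n ih =>
      calc y ^ (n+1) * x = y * (y ^ n * x) := by rw [pow_succ']; group
        _ = y * (x * y ^ n * w ^ n) := by rw [ih]
        _ = (y * x) * y ^ n * w ^ n := by group
        _ = x * y * (w * y ^ n) * w ^ n := by rw [h]; group
        _ = x * y * (y ^ n * w) * w ^ n := by rw [hwc (y ^ n)]
        _ = x * y ^ (n+1) * w ^ (n+1) := by rw [pow_succ' y, pow_succ' w]; group
  intro n
  induction n with
  | zero => simp
  | succ n ih =>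
    have hc : (n+1).choose 2 = n + n.choose 2 := by
      rw [Nat.choose_succ_succ' n 1]; simp
    calc (x * y) ^ (n+1) = (x * y) ^ n * (x * y) := pow_succ _ _
      _ = x ^ n * y ^ n * (w ^ (n.choose 2) * x) * y := by rw [ih]; group
      _ = x ^ n * y ^ n * (x * w ^ (n.choose 2)) * y := by rw [hwn _ x]
      _ = x ^ n * (y ^ n * x) * (w ^ (n.choose 2) * y) := by group
      _ = x ^ n * (x * y ^ n * w ^ n) * (y * w ^ (n.choose 2)) := by rw [hy, hwn _ y]
      _ = x ^ (n+1) * y ^ n * (w ^ n * y) * w ^ (n.choose 2) := by rw [pow_succ x]; group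
      _ = x ^ (n+1) * y ^ n * (y * w ^ n) * w ^ (n.choose 2) := by rw [hwn n y]
      _ = x ^ (n+1) * y ^ (n+1) * w ^ ((n+1).choose 2) := by
          rw [hc, pow_add, pow_succ y]; group

lemma mul_pow_prime {P : Type*} [Group P] {p : ℕ} (hp : p.Prime) (hp2 : p ≠ 2) {x y w : P}
    (hw : w ∈ Subgroup.center P) (hwp : w ^ p = 1)
    (h : y * x = x * y * w) : (x * y) ^ p = x ^ p * y ^ p := by
  rw [mul_pow_of_comm hw h p]
  have hd : p ∣ p.choose 2 := by
    apply Nat.Prime.dvd_choose_self hp (by norm_num)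
    have := hp.two_le
    omega
  obtain ⟨k, hk⟩ := hd
  rw [hk, pow_mul, hwp, one_pow, mul_one]

theorem pgLemma {p : ℕ} (hp : p.Prime) (hp2 : p ≠ 2) {P : Type*} [Group P] [Finite P]
    (hP : IsPGroup p P) (hc : ¬ IsCyclic P) :
    ∃ z c : P, z ∈ Subgroup.center P ∧ z ≠ 1 ∧ z ^ p = 1 ∧ c ^ p = 1 ∧
      (∀ k : ℕ, c ≠ z ^ k) ∧ ∀ g : P, ∃ k : ℕ, g⁻¹ * c * g = c * z ^ k := by
  have : Fact p.Prime := ⟨hp⟩
  induction hn : Nat.card P using Nat.strong_induction_on generalizing P with
  | _ n ih =>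
  subst hn
  -- P is nontrivial
  have hnt : Nontrivial P := by
    by_contra h
    rw [not_nontrivial_iff_subsingleton] at h
    exact hc isCyclic_of_subsingleton
  have hcn : Nontrivial (Subgroup.center P) := hP.center_nontrivial
  obtain ⟨z₀, hz₀⟩ : ∃ z : Subgroup.center P, orderOf z = p := by
    have hcp : IsPGroup p (Subgroup.center P) := hP.to_subgroup _
    obtain ⟨k, hk⟩ := IsPGroup.iff_card.1 hcp
    apply exists_prime_orderOf_dvd_card'
    rw [hk]
    apply dvd_pow_self
    rintro rfl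
    rw [pow_zero] at hk
    have := Finite.one_lt_card_iff_nontrivial.2 hcn
    omega
  obtain ⟨z, hzc⟩ := z₀
  have hz : orderOf z = p := by rw [← hz₀]; exact (Subgroup.orderOf_mk z hzc).symm
  have hz1 : z ≠ 1 := by
    rintro rfl
    rw [orderOf_one] at hz
    exact hp.one_lt.ne hz
  have hzp : z ^ p = 1 := by rw [← hz]; exact pow_orderOf_eq_one z
  have hzcomm : ∀ g : P, g * z = z * g := fun g => Subgroup.mem_center_iff.1 hzc g
  have hzn : ∀ (n : ℕ) (g : P), g * z ^ n = z ^ n * g := fun n g =>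
    ((show Commute g z from hzcomm g).pow_right n)
  have hZ : (Subgroup.zpowers z).Normal := by
    constructor
    intro a ha g
    obtain ⟨k, rfl⟩ := ha
    have : g * z ^ k * g⁻¹ = z ^ k := by
      have h1 : g * z ^ k = z ^ k * g := (show Commute g z from hzcomm g).zpow_right k
      rw [h1]; group
    simp only [this]
    exact ⟨k, rfl⟩
  have hmem : ∀ a : P, a ∈ Subgroup.zpowers z → ∃ k : ℕ, a = z ^ k := by
    intro a ha
    obtain ⟨k, hk⟩ := (mem_powers_iff_mem_zpowers.2 ha)
    exact ⟨k, hk.symm⟩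
  -- power of z nontrivial generates z
  have hgen : ∀ a : P, a ∈ Subgroup.zpowers z → a ≠ 1 → ∀ b ∈ Subgroup.zpowers z, ∃ t : ℕ, b * a ^ t = 1 := by
    intro a ha ha1 b hb
    have hcard : Nat.card (Subgroup.zpowers z) = p := by rw [Nat.card_zpowers, hz]
    have hab : (⟨b⁻¹, inv_mem hb⟩ : Subgroup.zpowers z) ∈ Subgroup.zpowers (⟨a, ha⟩ : Subgroup.zpowers z) := by
      rw [zpowers_eq_top_of_prime_card hcard (g := ⟨a, ha⟩) (by simpa [Subtype.ext_iff] using ha1)]
      trivial
    obtain ⟨t, ht⟩ := mem_powers_iff_mem_zpowers.2 hab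
    refine ⟨t, ?_⟩
    have := congrArg Subtype.val ht
    simp only [SubmonoidClass.mk_pow] at this
    change b * a ^ t = 1
    rw [this]; group
  set Z := Subgroup.zpowers z with hZdef
  let π : P →* P ⧸ Z := QuotientGroup.mk' Z
  have hπ : ∀ a : P, π a = 1 ↔ a ∈ Z := fun a => QuotientGroup.eq_one_iff a
  have hπs : Function.Surjective π := QuotientGroup.mk'_surjective Z
  have hQP : IsPGroup p (P ⧸ Z) := hP.to_quotient Z
  by_cases hQ : IsCyclic (P ⧸ Z)
  · -- P abelian
    obtain ⟨q, hq⟩ := hQ.exists_generator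
    obtain ⟨x, rfl⟩ := hπs q
    have hx : ∀ a : P, ∃ (i : ℤ) (k : ℕ), a = x ^ i * z ^ k := by
      intro a
      obtain ⟨i, hi⟩ := hq (π a)
      have : (x ^ i)⁻¹ * a ∈ Z := by
        rw [← hπ]
        simp only [map_mul, map_inv, map_zpow]
        simp only at hi
        rw [hi]; group
      obtain ⟨k, hk⟩ := hmem _ this
      exact ⟨i, k, by rw [← hk]; group⟩
    obtain ⟨m, hm⟩ := (IsPGroup.iff_orderOf.1 hQP) (π x)
    have hxm : x ^ p ^ m ∈ Z := by
      rw [← hπ, map_pow, ← hm, pow_orderOf_eq_one]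
    have hxm1 : x ^ p ^ m = 1 := by
      by_contra hne
      apply hc
      refine ⟨x, fun a => ?_⟩
      obtain ⟨t, ht⟩ := hgen _ hxm hne z (Subgroup.mem_zpowers z)
      have hzx : z ∈ Subgroup.zpowers x := by
        have : z = ((x ^ p ^ m) ^ t)⁻¹ := eq_inv_of_mul_eq_one_left ht
        rw [this]
        exact inv_mem (pow_mem (pow_mem (Subgroup.mem_zpowers x) _) _)
      obtain ⟨i, k, rfl⟩ := hx a
      exact mul_mem (zpow_mem (Subgroup.mem_zpowers x) _) (pow_mem hzx _)
    have hcomm : ∀ g : P, g * x = x * g := by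
      intro g
      obtain ⟨i, k, rfl⟩ := hx g
      have h1 : x ^ i * x = x * x ^ i := by group
      rw [mul_assoc, ← hzn k x, ← mul_assoc, h1, mul_assoc]
    rcases Nat.eq_zero_or_pos m with rfl | hm0
    · exfalso
      apply hc
      refine ⟨z, fun a => ?_⟩
      obtain ⟨i, k, rfl⟩ := hx a
      rw [pow_zero, pow_one] at hxm1
      rw [hxm1, one_zpow, one_mul]
      exact pow_mem (Subgroup.mem_zpowers z) _
    · refine ⟨z, x ^ p ^ (m-1), hzc, hz1, hzp, ?_, ?_, ?_⟩
      · rw [← pow_mul, ← pow_succ, Nat.sub_add_cancel hm0, hxm1]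
      · intro k hk
        have h1 : (π x) ^ p ^ (m-1) = 1 := by
          rw [← map_pow, hπ, hk]
          exact pow_mem (Subgroup.mem_zpowers z) _
        have h2 := orderOf_dvd_of_pow_eq_one h1
        rw [hm] at h2
        have h3 := (Nat.pow_dvd_pow_iff_le_right hp.one_lt).1 h2
        omega
      · intro g
        refine ⟨0, ?_⟩
        have h1 : g * x ^ p ^ (m-1) = x ^ p ^ (m-1) * g := (show Commute g x from hcomm g).pow_right _
        rw [pow_zero, mul_one, mul_assoc, ← h1]; group
  · -- inductive case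
    have hlt : Nat.card (P ⧸ Z) < Nat.card P := by
      have h1 : Nat.card P = Nat.card (P ⧸ Z) * Nat.card Z := Subgroup.card_eq_card_quotient_mul_card_subgroup Z
      have h2 : Nat.card Z = p := by rw [hZdef, Nat.card_zpowers, hz]
      have h3 : 0 < Nat.card (P ⧸ Z) := Nat.card_pos
      have h4 := hp.two_le
      rw [h1, h2]
      nlinarith
    obtain ⟨z', c', hz'c, hz'1, hz'p, hc'p, hc', hconj⟩ := ih _ hlt hQP hQ rfl
    obtain ⟨a, rfl⟩ := hπs z'
    obtain ⟨b, rfl⟩ := hπs c'
    have haZ : a ^ p ∈ Z := by rw [← hπ, map_pow, hz'p]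
    have hbZ : b ^ p ∈ Z := by rw [← hπ, map_pow, hc'p]
    have haconj : ∀ g : P, ∃ k : ℕ, g⁻¹ * a * g = a * z ^ k := by
      intro g
      have : a⁻¹ * (g⁻¹ * a * g) ∈ Z := by
        rw [← hπ]
        have h1 := Subgroup.mem_center_iff.1 hz'c (π g)
        simp only [map_mul, map_inv]
        have h2 : (π g)⁻¹ * π a * π g = π a := by rw [mul_assoc, ← h1]; group
        rw [h2]; group
      obtain ⟨k, hk⟩ := hmem _ this
      exact ⟨k, by rw [← hk]; group⟩
    by_cases ha1 : a ^ p = 1
    · refine ⟨z, a, hzc, hz1, hzp, ha1, ?_, haconj⟩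
      intro k hk
      apply hz'1
      rw [hπ, hk]
      exact pow_mem (Subgroup.mem_zpowers z) _
    · obtain ⟨t, ht⟩ := hgen _ haZ ha1 _ hbZ
      have hac : ∀ (g : P), ∃ k : ℕ, a * g = g * a * z ^ k := by
        intro g
        obtain ⟨k, hk⟩ := haconj g
        refine ⟨k, ?_⟩
        rw [mul_assoc, ← hk]; group
      -- powers of a
      have hacn : ∀ (n : ℕ) (g : P), ∃ k : ℕ, a ^ n * g = g * a ^ n * z ^ k := by
        intro n g
        induction n with
        | zero => exact ⟨0, by simp⟩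
        | succ n ihn =>
          obtain ⟨k, hk⟩ := ihn
          obtain ⟨l, hl⟩ := hac g
          refine ⟨k + l, ?_⟩
          calc a ^ (n+1) * g = a * (a ^ n * g) := by rw [pow_succ']; group
            _ = a * (g * a ^ n * z ^ k) := by rw [hk]
            _ = (a * g) * a ^ n * z ^ k := by group
            _ = g * a * (z ^ l * a ^ n) * z ^ k := by rw [hl]; group
            _ = g * a * (a ^ n * z ^ l) * z ^ k := by rw [hzn l (a ^ n)]
            _ = g * a ^ (n+1) * z ^ (k + l) := by
                rw [pow_succ' a, add_comm k l, pow_add]; group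
      have hzcn : ∀ k : ℕ, z ^ k ∈ Subgroup.center P := fun k => pow_mem hzc k
      have hzkp : ∀ k : ℕ, (z ^ k) ^ p = 1 := fun k => by
        rw [← pow_mul, mul_comm, pow_mul, hzp, one_pow]
      set c := b * a ^ t with hcdef
      have hcp : c ^ p = 1 := by
        obtain ⟨k, hk⟩ := hacn t b
        rw [hcdef, mul_pow_prime hp hp2 (hzcn k) (hzkp k) hk, ← pow_mul, mul_comm t p, pow_mul, ht]
      refine ⟨z, c, hzc, hz1, hzp, hcp, ?_, ?_⟩
      · intro k hk
        have h1 : π c = 1 := by
          rw [hπ, hk]; exact pow_mem (Subgroup.mem_zpowers z) _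
        rw [hcdef, map_mul, map_pow] at h1
        have h2 : π b = ((π a) ^ t)⁻¹ := eq_inv_of_mul_eq_one_left h1
        have h3 : ((π a) ^ t)⁻¹ ∈ Submonoid.powers (π a) := by
          rw [mem_powers_iff_mem_zpowers]
          exact inv_mem (pow_mem (Subgroup.mem_zpowers _) _)
        obtain ⟨s, hs⟩ := h3
        exact hc' s (by rw [h2]; exact hs.symm)
      · intro g
        obtain ⟨j, hj⟩ := hconj (π g)
        -- g⁻¹ b g = b a^j z^l
        obtain ⟨l, hl⟩ : ∃ l : ℕ, g⁻¹ * b * g = b * a ^ j * z ^ l := by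
          have : (b * a ^ j)⁻¹ * (g⁻¹ * b * g) ∈ Z := by
            rw [← hπ]
            simp only [map_mul, map_inv, map_pow]
            rw [hj]; group
          obtain ⟨k, hk⟩ := hmem _ this
          exact ⟨k, by rw [← hk]; group⟩
        obtain ⟨i, hi⟩ := hacn t g
        -- g⁻¹ a^t g = a^t z^i
        have hi' : g⁻¹ * a ^ t * g = a ^ t * z ^ i := by
          rw [mul_assoc, hi]; group
        have hcg : g⁻¹ * c * g = c * (a ^ j * z ^ (l + i)) := by
          calc g⁻¹ * c * g = (g⁻¹ * b * g) * (g⁻¹ * a ^ t * g) := by rw [hcdef]; group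
            _ = b * a ^ j * (z ^ l * a ^ t) * z ^ i := by rw [hl, hi']; group
            _ = b * a ^ j * (a ^ t * z ^ l) * z ^ i := by rw [hzn l (a ^ t)]
            _ = c * (a ^ j * z ^ (l + i)) := by
                rw [hcdef, pow_add]
                have : a ^ j * a ^ t = a ^ t * a ^ j := by rw [← pow_add, ← pow_add, add_comm]
                calc b * a ^ j * (a ^ t * z ^ l) * z ^ i = b * (a ^ j * a ^ t) * z ^ l * z ^ i := by group
                  _ = b * (a ^ t * a ^ j) * z ^ l * z ^ i := by rw [this]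
                  _ = _ := by group
        -- pth power
        obtain ⟨k, hk⟩ := hacn j c
        have hk' : a ^ j * z ^ (l + i) * c = c * (a ^ j * z ^ (l + i)) * z ^ k := by
          calc a ^ j * z ^ (l + i) * c = a ^ j * (z ^ (l + i) * c) := by group
            _ = (a ^ j * c) * z ^ (l + i) := by rw [← hzn (l+i) c]; group
            _ = c * a ^ j * (z ^ k * z ^ (l+i)) := by rw [hk]; group
            _ = c * a ^ j * (z ^ (l+i) * z ^ k) := by rw [← pow_add, ← pow_add, add_comm k]
            _ = _ := by group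
        have hpow : (c * (a ^ j * z ^ (l + i))) ^ p = 1 := by
          rw [← hcg]
          have : (g⁻¹ * c * g) ^ p = g⁻¹ * c ^ p * g := by
            have := conj_pow (a := g⁻¹) (b := c) (i := p)
            rwa [inv_inv] at this
          rw [this, hcp]; group
        rw [mul_pow_prime hp hp2 (hzcn k) (hzkp k) hk', hcp, one_mul] at hpow
        have hpow2 : (a ^ p) ^ j = 1 := by
          have h1 : (a ^ j * z ^ (l + i)) ^ p = (a ^ j) ^ p * (z ^ (l+i)) ^ p :=
            ((show Commute (a ^ j) (z ^ (l+i)) from hzn (l+i) (a ^ j))).mul_pow p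
          rw [h1, hzkp, mul_one, ← pow_mul, mul_comm, pow_mul] at hpow
          exact hpow
        -- p ∣ j
        have hjd : p ∣ j := by
          have h1 : orderOf (a ^ p) = p := by
            have h2 : (a ^ p) ^ p = 1 := by
              obtain ⟨k, hk⟩ := hmem _ haZ
              rw [hk]; exact hzkp k
            exact orderOf_eq_prime h2 ha1
          rw [← h1]; exact orderOf_dvd_of_pow_eq_one hpow2
        obtain ⟨j', rfl⟩ := hjd
        obtain ⟨r, hr⟩ := hmem _ (pow_mem haZ j')
        refine ⟨r + (l + i), ?_⟩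
        rw [hcg, pow_mul, hr, ← pow_add]

end Pool.Agent.H77.Syl
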