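import Pool.Agent.H77.Syl.LB5
import Pool.Agent.H77.Syl.PG
import Pool.Agent.H49.SylInd

/-!
Module lemma, final form.
-/

namespace Pool.Agent.H77.Syl

universe u

theorem pgs : PGS.{u} := by
  intro p hp hp2 P _ _ hP hc
  exact pgLemma hp hp2 hP hc

theorem cast_ne_zero_of_not_dvd {F : Type*} [Field F] [Finite F] {p : ℕ} (hp : p.Prime)
    (h : ¬ p ∣ Nat.card F) : (p : F) ≠ 0 := by
  intro h0
  apply h
  have := Fact.mk hp
  have h1 : addOrderOf (1 : F) = p := addOrderOf_eq_prime (by simpa using h0) one_ne_zero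
  rw [← h1]
  exact addOrderOf_dvd_natCard 1

theorem lemB : Pool.Agent.H49.Syl.LBS.{u} := by
  intro F _ _ hodd V _ _ _ _ ι _ p hp hp2 hpF hinj P hP hcomm s i₀ w
  exact lemB_aux pgs hodd p hp hp2 hinj (fun i => cast_ne_zero_of_not_dvd (hp i) (hpF i)) _ V rfl P hP hcomm s i₀ w

end Pool.Agent.H77.Syl
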