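import Mathlib

/-!
Module lemma, part 1: restriction to submodules, complements, one element families.
-/

namespace Pool.Agent.H77.Syl

open Finset

/-- The conclusion of the module lemma for a family of groups of linear automorphisms. -/
def Good {F : Type*} [Field F] {V : Type*} [AddCommGroup V] [Module F V] {ι : Type*}
    (P : ι → Subgroup (Module.End F V)ˣ) : Prop :=
  ∀ (s : ι → V) (i₀ : ι) (w : V), ∃ f : V,
    (∀ i, ∀ g ∈ P i, (g : Module.End F V) (f + s i) = f + s i → g = 1) ∧
    ∀ g ∈ P i₀, (g : Module.End F V) w ≠ f + s i₀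

section transfer

variable {F : Type*} [Field F] {V : Type*} [AddCommGroup V] [Module F V] {ι : Type*}

/-- The restriction homomorphism of a group of automorphisms preserving a submodule. -/
def resHom (Q : Subgroup (Module.End F V)ˣ) (U : Submodule F V)
    (hinv : ∀ g ∈ Q, ∀ v ∈ U, (g : Module.End F V) v ∈ U) : ↥Q →* Module.End F ↥U where
  toFun g := (g.1 : Module.End F V).restrict (hinv g.1 g.2)
  map_one' := by
    ext v; simp
  map_mul' g h := by
    ext v; simp

theorem resHom_apply (Q : Subgroup (Module.End F V)ˣ) (U : Submodule F V)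
    (hinv : ∀ g ∈ Q, ∀ v ∈ U, (g : Module.End F V) v ∈ U) (g : ↥Q) (v : ↥U) :
    ((resHom Q U hinv g v : ↥U) : V) = (g.1 : Module.End F V) v := rfl

theorem transfer (p : ι → ℕ) (U : Submodule F V)
    (hU : ∀ P : ι → Subgroup (Module.End F ↥U)ˣ, (∀ i, IsPGroup (p i) (P i)) →
      (∀ i j, i ≠ j → ∀ g ∈ P i, ∀ h ∈ P j, g * h = h * g) → Good P)
    (Q : ι → Subgroup (Module.End F V)ˣ) (hQ : ∀ i, IsPGroup (p i) (Q i))
    (hinv : ∀ i, ∀ g ∈ Q i, ∀ v ∈ U, (g : Module.End F V) v ∈ U)
    (hcomm : ∀ i j, i ≠ j → ∀ g ∈ Q i, ∀ h ∈ Q j, g * h = h * g)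
    (s : ι → V) (hs : ∀ i, s i ∈ U) (i₀ : ι) (w : V) (hw : w ∈ U) :
    ∃ f ∈ U, (∀ i, ∀ g ∈ Q i, (g : Module.End F V) (f + s i) = f + s i →
        ∀ v ∈ U, (g : Module.End F V) v = v) ∧
      ∀ g ∈ Q i₀, (g : Module.End F V) w ≠ f + s i₀ := by
  classical
  set φ : ∀ i, ↥(Q i) →* (Module.End F ↥U)ˣ := fun i => (resHom (Q i) U (hinv i)).toHomUnits with hφ
  have hφv : ∀ i (g : ↥(Q i)) (v : ↥U), ((((φ i g : (Module.End F ↥U)ˣ) : Module.End F ↥U) v : ↥U) : V)
      = (g.1 : Module.End F V) v := by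
    intro i g v; rfl
  obtain ⟨f, hf1, hf2⟩ := hU (fun i => (φ i).range)
    (by
      intro i
      exact (hQ i).of_surjective (φ i).rangeRestrict (φ i).rangeRestrict_surjective)
    (by
      rintro i j hij _ ⟨g, rfl⟩ _ ⟨h, rfl⟩
      have := hcomm i j hij g.1 g.2 h.1 h.2
      apply Units.ext
      ext v
      have h1 : (((g.1 * h.1 : (Module.End F V)ˣ) : Module.End F V)) v
        = ((h.1 * g.1 : (Module.End F V)ˣ) : Module.End F V) v := by rw [this]
      rw [Units.val_mul, Units.val_mul, Module.End.mul_apply, Module.End.mul_apply, hφv, hφv, hφv, hφv]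
      exact h1)
    (fun i => ⟨s i, hs i⟩) i₀ ⟨w, hw⟩
  refine ⟨f.1, f.2, ?_, ?_⟩
  · intro i g hg hgf v hv
    have := hf1 i (φ i ⟨g, hg⟩) ⟨_, rfl⟩ (by
      apply Subtype.ext
      rw [hφv]
      simpa using hgf)
    have h2 := hφv i ⟨g, hg⟩ ⟨v, hv⟩
    rw [this] at h2
    simpa using h2.symm
  · intro g hg hgw
    refine hf2 (φ i₀ ⟨g, hg⟩) ⟨_, rfl⟩ ?_
    apply Subtype.ext
    rw [hφv]
    simpa using hgw

end transfer

section maschke

variable {F : Type*} [Field F] {V : Type*} [AddCommGroup V] [Module F V] {ι : Type*}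

/-- average of conjugates of a linear map over a finite group of automorphisms -/
noncomputable def avg (Q : Subgroup (Module.End F V)ˣ) [Fintype ↥Q] (π : Module.End F V) : Module.End F V :=
  ((Fintype.card ↥Q : F)⁻¹) • ∑ g : ↥Q, (g.1 : Module.End F V) * π * ((g.1⁻¹ : (Module.End F V)ˣ) : Module.End F V)

theorem avg_comm (Q : Subgroup (Module.End F V)ˣ) [Fintype ↥Q] (π : Module.End F V)
    (h : (Module.End F V)ˣ) (hh : h ∈ Q) :
    (h : Module.End F V) * avg Q π = avg Q π * (h : Module.End F V) := by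
  unfold avg
  rw [mul_smul_comm, smul_mul_assoc, Finset.mul_sum, Finset.sum_mul]
  congr 1
  refine Fintype.sum_equiv (Equiv.mulLeft (⟨h, hh⟩ : ↥Q)) _ _ ?_
  intro g
  simp only [Equiv.coe_mulLeft, Subgroup.coe_mul, Units.val_mul, mul_inv_rev, mul_assoc]
  rw [Units.inv_mul, mul_one]

theorem avg_comm_other (Q : Subgroup (Module.End F V)ˣ) [Fintype ↥Q] (π : Module.End F V)
    (h : (Module.End F V)ˣ) (hh : ∀ g ∈ Q, g * h = h * g)
    (hπ : (h : Module.End F V) * π = π * (h : Module.End F V)) :
    (h : Module.End F V) * avg Q π = avg Q π * (h : Module.End F V) := by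
  unfold avg
  rw [mul_smul_comm, smul_mul_assoc, Finset.mul_sum, Finset.sum_mul]
  congr 1
  refine Finset.sum_congr rfl ?_
  intro g _
  have h1 : (h : Module.End F V) * (g.1 : Module.End F V) = (g.1 : Module.End F V) * h := by
    rw [← Units.val_mul, ← Units.val_mul, hh g.1 g.2]
  have h2 : (h : Module.End F V) * ((g.1⁻¹ : (Module.End F V)ˣ) : Module.End F V)
      = ((g.1⁻¹ : (Module.End F V)ˣ) : Module.End F V) * h := by
    rw [← Units.val_mul, ← Units.val_mul, hh g.1⁻¹ (Q.inv_mem g.2)]
  rw [← mul_assoc, ← mul_assoc, h1, mul_assoc _ _ π, hπ, mul_assoc, mul_assoc, h2, mul_assoc, mul_assoc]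
  

theorem maschke [Finite V] [Finite ι] (P : ι → Subgroup (Module.End F V)ˣ)
    (hcard : ∀ i, (Nat.card ↥(P i) : F) ≠ 0)
    (hcomm : ∀ i j, i ≠ j → ∀ g ∈ P i, ∀ h ∈ P j, g * h = h * g)
    (U : Submodule F V) (hinv : ∀ i, ∀ g ∈ P i, ∀ v ∈ U, (g : Module.End F V) v ∈ U) :
    ∃ U' : Submodule F V, IsCompl U U' ∧ ∀ i, ∀ g ∈ P i, ∀ v ∈ U', (g : Module.End F V) v ∈ U' := by
  classical
  have : Finite (Module.End F V) := Finite.of_injective (fun f : Module.End F V => (f : V → V)) DFunLike.coe_injective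
  have : ∀ i, Fintype ↥(P i) := fun i => Fintype.ofFinite _
  have := Fintype.ofFinite ι
  have key : ∀ t : Finset ι, ∃ π : Module.End F V, (∀ v, π v ∈ U) ∧ (∀ v ∈ U, π v = v) ∧
      ∀ i ∈ t, ∀ g ∈ P i, (g : Module.End F V) * π = π * g := by
    intro t
    induction t using Finset.induction_on with
    | empty =>
      obtain ⟨U', hU'⟩ := U.exists_isCompl
      refine ⟨U.subtype ∘ₗ U.projectionOnto U' hU', ?_, ?_, ?_⟩
      · intro v; simp
      · intro v hv
        have := Submodule.projectionOnto_apply_left hU' ⟨v, hv⟩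
        exact congrArg Subtype.val this
      · intro i hi; simp at hi
    | insert j t hj ih =>
      obtain ⟨π, h1, h2, h3⟩ := ih
      refine ⟨avg (P j) π, ?_, ?_, ?_⟩
      · intro v
        unfold avg
        rw [LinearMap.smul_apply, LinearMap.sum_apply]
        refine U.smul_mem _ (U.sum_mem ?_)
        intro g _
        simp only [Module.End.mul_apply]
        exact hinv j g.1 g.2 _ (h1 _)
      · intro v hv
        unfold avg
        rw [LinearMap.smul_apply, LinearMap.sum_apply]
        have : ∀ g : ↥(P j), ((g.1 : Module.End F V) * π * ((g.1⁻¹ : (Module.End F V)ˣ) : Module.End F V)) v = v := by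
          intro g
          simp only [Module.End.mul_apply]
          rw [h2 _ (hinv j _ ((P j).inv_mem g.2) v hv), ← Module.End.mul_apply, Units.mul_inv, Module.End.one_apply]
        rw [Finset.sum_congr rfl (fun g _ => this g)]
        simp only [Finset.sum_const, Finset.card_univ]
        rw [← Nat.cast_smul_eq_nsmul F, smul_smul, inv_mul_cancel₀, one_smul]
        have := hcard j
        rwa [Nat.card_eq_fintype_card] at this
      · intro i hi g hg
        by_cases hij : i = j
        · subst hij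
          exact avg_comm (P i) π g hg
        · have hit : i ∈ t := by
            rcases Finset.mem_insert.1 hi with h | h
            · exact absurd h hij
            · exact h
          exact avg_comm_other (P j) π g (fun g' hg' => hcomm j i (fun h => hij h.symm) g' hg' g hg)
            (h3 i hit g hg)
  obtain ⟨π, h1, h2, h3⟩ := key Finset.univ
  refine ⟨LinearMap.ker π, ?_, ?_⟩
  · constructor
    · rw [Submodule.disjoint_def]
      intro v hv hv'
      rw [← h2 v hv]
      exact hv'
    · rw [codisjoint_iff, eq_top_iff]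
      intro v _
      rw [Submodule.mem_sup]
      refine ⟨π v, h1 v, v - π v, ?_, by abel⟩
      rw [LinearMap.mem_ker, map_sub, h2 _ (h1 v), sub_self]
  · intro i g hg v hv
    rw [LinearMap.mem_ker] at hv ⊢
    have := h3 i (Finset.mem_univ i) g hg
    rw [← Module.End.mul_apply, ← this, Module.End.mul_apply, hv, map_zero]

end maschke

end Pool.Agent.H77.Syl
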