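import Pool.Agent.H77.Syl.LB4

/-!
Module lemma, part 5: the induction.
-/

namespace Pool.Agent.H77.Syl

open Finset

universe u

/-- The statement of the p-group lemma. -/
def PGS : Prop := ∀ (p : ℕ) (_ : p.Prime) (_ : p ≠ 2) (P : Type u) [Group P] [Finite P]
    (_ : IsPGroup p P) (_ : ¬ IsCyclic P),
    ∃ z c : P, z ∈ Subgroup.center P ∧ z ≠ 1 ∧ z ^ p = 1 ∧ c ^ p = 1 ∧
      (∀ k : ℕ, c ≠ z ^ k) ∧ ∀ g : P, ∃ k : ℕ, g⁻¹ * c * g = c * z ^ k

theorem lemB_aux (hPG : PGS.{u}) {F : Type*} [Field F] [Finite F] (hodd : Odd (Nat.card F))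
    {ι : Type*} [Finite ι] (p : ι → ℕ)
    (hp : ∀ i, (p i).Prime) (hp2 : ∀ i, p i ≠ 2) (hpinj : Function.Injective p)
    (hpF : ∀ i, (p i : F) ≠ 0) : ∀ n : ℕ, ∀ (V : Type u) [AddCommGroup V] [Module F V] [Finite V]
    [Nontrivial V], Nat.card V = n → ∀ P : ι → Subgroup (Module.End F V)ˣ,
    (∀ i, IsPGroup (p i) (P i)) →
    (∀ i j, i ≠ j → ∀ g ∈ P i, ∀ h ∈ P j, g * h = h * g) → Good P := by
  classical
  intro n
  induction n using Nat.strong_induction_on with
  | _ n ih =>
  intro V _ _ _ _ hn P hP hcomm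
  have hfE : Finite (Module.End F V) :=
    Finite.of_injective (fun f : Module.End F V => (f : V → V)) DFunLike.coe_injective
  have hsub : ∀ U : Submodule F V, U ≠ ⊥ → U ≠ ⊤ → SubGood p U := by
    intro U hU1 hU2 Q hQ hinv hc s hs i₀ w hw
    have hnt : Nontrivial ↥U := Submodule.nontrivial_iff_ne_bot.2 hU1
    have hlt : Nat.card ↥U < n := by
      rw [← hn]
      obtain ⟨x, hx⟩ : ∃ x, x ∉ U := by
        by_contra hcon
        push Not at hcon
        exact hU2 (Submodule.eq_top_iff'.2 hcon)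
      exact Finite.card_subtype_lt hx
    exact transfer p U (fun P' h1 h2 => ih _ hlt ↥U rfl P' h1 h2) Q hQ hinv hc s hs i₀ w hw
  by_cases hirr : ∀ U : Submodule F V, (∀ i, ∀ g ∈ P i, ∀ v ∈ U, (g : Module.End F V) v ∈ U) → U = ⊥ ∨ U = ⊤
  · by_cases hfree : ∀ i, ∀ g ∈ P i, ∀ v : V, v ≠ 0 → (g : Module.End F V) v = v → g = 1
    · refine case1 ?_ p hp hp2 hpinj P hP hfree
      rw [Module.natCard_eq_pow_finrank (K := F)]
      exact hodd.pow
    · push Not at hfree
      obtain ⟨i₁, g₀, hg₀, v₀, hv₀, hgv₀, hg₀1⟩ := hfree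
      have hnc : ¬ IsCyclic ↥(P i₁) := by
        intro hcyc
        have hab : ∀ g ∈ P i₁, g₀ * g = g * g₀ := by
          intro g hg
          obtain ⟨x, hx⟩ := hcyc.exists_generator
          obtain ⟨a, ha⟩ := Subgroup.mem_zpowers_iff.1 (hx ⟨g₀, hg₀⟩)
          obtain ⟨b, hb⟩ := Subgroup.mem_zpowers_iff.1 (hx ⟨g, hg⟩)
          have h1 : g₀ = (x.1) ^ a := by
            have := congrArg Subtype.val ha
            simpa using this.symm
          have h2 : g = (x.1) ^ b := by
            have := congrArg Subtype.val hb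
            simpa using this.symm
          rw [h1, h2, ← zpow_add, ← zpow_add, add_comm]
        rcases hirr (LinearMap.ker ((g₀ : Module.End F V) - 1)) (by
          intro i g hg v hv
          rw [LinearMap.mem_ker, LinearMap.sub_apply, Module.End.one_apply, sub_eq_zero] at hv ⊢
          have hcm : g₀ * g = g * g₀ := by
            by_cases hi : i = i₁
            · subst hi; exact hab g hg
            · exact (hcomm i i₁ hi g hg g₀ hg₀).symm
          rw [← Module.End.mul_apply, ← Units.val_mul, hcm, Units.val_mul, Module.End.mul_apply, hv]) with h | h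
        · apply hv₀
          have : v₀ ∈ LinearMap.ker ((g₀ : Module.End F V) - 1) := by
            rw [LinearMap.mem_ker, LinearMap.sub_apply, Module.End.one_apply, hgv₀, sub_self]
          rw [h] at this
          simpa using this
        · apply hg₀1
          apply Units.ext
          ext v
          have : v ∈ LinearMap.ker ((g₀ : Module.End F V) - 1) := by rw [h]; trivial
          rw [LinearMap.mem_ker, LinearMap.sub_apply, Module.End.one_apply, sub_eq_zero] at this
          simpa using this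
      obtain ⟨z, c, hzc, hz1, hzp, hcp, hcz, hconj⟩ := hPG (p i₁) (hp i₁) (hp2 i₁) ↥(P i₁) (hP i₁) hnc
      refine case2 p hp hp2 hpF P hP hcomm hirr hsub i₁ z.1 c.1 c.2 z.2 ?_ ?_ ?_ ?_ ?_ ?_
      · intro g hg
        have := (Subgroup.mem_center_iff.1 hzc) ⟨g, hg⟩
        exact (congrArg Subtype.val this).symm
      · intro h
        apply hz1
        exact Subtype.ext h
      · have := congrArg Subtype.val hzp
        simpa using this
      · have := congrArg Subtype.val hcp
        simpa using this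
      · intro k hk
        apply hcz k
        apply Subtype.ext
        simpa using hk
      · intro g hg
        obtain ⟨k, hk⟩ := hconj ⟨g, hg⟩
        refine ⟨k, ?_⟩
        have := congrArg Subtype.val hk
        simpa using this
  · -- reducible case
    push Not at hirr
    obtain ⟨U, hinv, hU1, hU2⟩ := hirr
    have hcard : ∀ i, (Nat.card ↥(P i) : F) ≠ 0 := by
      intro i
      have := Fact.mk (hp i)
      obtain ⟨a, ha⟩ := IsPGroup.iff_card.1 (hP i)
      rw [ha, Nat.cast_pow]
      exact pow_ne_zero _ (hpF i)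
    obtain ⟨U', hcompl, hinv'⟩ := maschke P hcard hcomm U hinv
    have hU1' : U' ≠ ⊥ := by
      intro h
      rw [h] at hcompl
      exact hU2 (by have := hcompl.sup_eq_top; rwa [sup_bot_eq] at this)
    have hU2' : U' ≠ ⊤ := by
      intro h
      rw [h] at hcompl
      exact hU1 (by have := hcompl.inf_eq_bot; rwa [inf_top_eq] at this)
    intro s i₀ w
    have hdec : ∀ v : V, ∃ a ∈ U, ∃ b ∈ U', a + b = v := by
      intro v
      have : v ∈ U ⊔ U' := by rw [hcompl.sup_eq_top]; trivial
      exact Submodule.mem_sup.1 this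
    have huniq : ∀ a ∈ U, ∀ b ∈ U', ∀ a' ∈ U, ∀ b' ∈ U', a + b = a' + b' → a = a' ∧ b = b' := by
      intro a ha b hb a' ha' b' hb' h
      have h1 : a - a' = b' - b := by
        rw [sub_eq_sub_iff_add_eq_add, h, add_comm]
      have h2 : a - a' = 0 := by
        have h3 : a - a' ∈ U := U.sub_mem ha ha'
        have h4 : a - a' ∈ U' := by rw [h1]; exact U'.sub_mem hb' hb
        exact (Submodule.disjoint_def.1 hcompl.disjoint) _ h3 h4
      refine ⟨sub_eq_zero.1 h2, ?_⟩
      rw [h2] at h1
      exact (sub_eq_zero.1 h1.symm).symm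
    choose a ha b hb hab using hdec
    obtain ⟨f1, hf1, h1, h2⟩ := hsub U hU1 hU2 P hP hinv hcomm (fun i => a (s i)) (fun i => ha _) i₀ (a w) (ha w)
    obtain ⟨f2, hf2, h3, -⟩ := hsub U' hU1' hU2' P hP hinv' hcomm (fun i => b (s i)) (fun i => hb _) i₀ 0 U'.zero_mem
    have hfs : ∀ i, f1 + f2 + s i = (f1 + a (s i)) + (f2 + b (s i)) := by
      intro i
      conv_lhs => rw [← hab (s i)]
      abel
    refine ⟨f1 + f2, ?_, ?_⟩
    · intro i g hg hgf
      rw [hfs, map_add] at hgf
      obtain ⟨h4, h5⟩ := huniq _ (hinv i g hg _ (U.add_mem hf1 (ha (s i)))) _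
        (hinv' i g hg _ (U'.add_mem hf2 (hb (s i)))) _ (U.add_mem hf1 (ha (s i))) _ (U'.add_mem hf2 (hb (s i))) hgf
      have h6 := h1 i g hg h4
      have h7 := h3 i g hg h5
      apply Units.ext
      ext v
      rw [Units.val_one, Module.End.one_apply]
      rw [← hab v, map_add, h6 _ (ha v), h7 _ (hb v)]
    · intro g hg hgw
      rw [hfs] at hgw
      rw [← hab w, map_add] at hgw
      obtain ⟨h4, -⟩ := huniq _ (hinv i₀ g hg _ (ha w)) _
        (hinv' i₀ g hg _ (hb w)) _ (U.add_mem hf1 (ha (s i₀))) _ (U'.add_mem hf2 (hb (s i₀))) hgw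
      exact h2 g hg h4

end Pool.Agent.H77.Syl
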