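import Mathlib

namespace Pool.Agent.H77.Syl

/-- module PG: the p-group lemma. -/
def PGStatement : Prop := ∀ (p : ℕ) (_ : p.Prime) (_ : p ≠ 2) (P : Type) [Group P] [Finite P]
    (_ : IsPGroup p P) (_ : ¬ IsCyclic P),
    ∃ z c : P, z ∈ Subgroup.center P ∧ z ≠ 1 ∧ z ^ p = 1 ∧ c ^ p = 1 ∧
      (∀ k : ℕ, c ≠ z ^ k) ∧ ∀ g : P, ∃ k : ℕ, g⁻¹ * c * g = c * z ^ k

/-- Lemma B -/
def LBStatement : Prop := ∀ (F : Type) [Field F] [Finite F] (_ : Odd (Nat.card F))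
  (V : Type) [AddCommGroup V] [Module F V] [Finite V] [Nontrivial V] (ι : Type) [Finite ι] (p : ι → ℕ)
  (_ : ∀ i, (p i).Prime) (_ : ∀ i, p i ≠ 2) (_ : ∀ i, ¬ p i ∣ Nat.card F)
  (_ : Function.Injective p) (P : ι → Subgroup (Module.End F V)ˣ)
  (_ : ∀ i, IsPGroup (p i) (P i))
  (_ : ∀ i j, i ≠ j → ∀ g ∈ P i, ∀ h ∈ P j, g * h = h * g)
  (s : ι → V) (i₀ : ι) (w : V),
  ∃ f : V, (∀ i, ∀ g ∈ P i, (g : Module.End F V) (f + s i) = f + s i → g = 1) ∧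
    ∀ g ∈ P i₀, (g : Module.End F V) w ≠ f + s i₀

end Pool.Agent.H77.Syl
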